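import Pool.Agent.H579R6.Wide

/-!
# Hard sets of small census under threshold reductions give `P = NP`

Suppose that an `NP`-hard set (so every set in `NP`) reduces to a set `S` by a polynomial-time
truth-table reduction whose evaluator is the sign of an integer-weighted sum of conjunctions of at
most `c n` queries, with polynomially bounded total weight.  If `(census S (p n) + 1) ^ c n` is
polynomially bounded for every polynomial `p` then `P = NP`.

For constant width `c` the condition says that `S` is sparse; so disjunctive, majority, bounded
truth-table and linear threshold reductions with polynomial weights to sparse sets are covered.  It
also covers, say, arbitrary `c n`-truth-table reductions to sets of census `2 ^ O(log n / c n)`.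

The proof has three parts.

1. The set of the codes of small subsets of `S` is sparse, and the reduction has width one to it.

2. (`Pool.Agent.H579R2.Spt`) The vector of the answers to polynomially many parallel `NP` queries
   lies in a polynomially long list computable in polynomial time.  If the number `k` of positive
   answers is guessed, the vector is the value of a single-valued `NP` function.  The inner products
   of the (encoded) vector with points of a sample space are `NP` questions, hence are signs of
   bounded margin of linear forms in the characteristic function of the unknown sparse set.  A
   search in the tree of prefixes keeps a prefix if the perceptron algorithm finds a solution of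
   these inequalities; since the systems belonging to different prefixes are almost orthogonal, few
   prefixes survive.

3. (`Pool.Agent.H251R5.PQ`, helper251 and his team, the theorem behind
   `MP_8f56c4_lc.ParallelQueriesCollapse`) If the answers to parallel `NP` queries can be
   enumerated in this way then `P = NP`.
-/

set_option autoImplicit false

namespace Pool.Agent.Results.MP_634427_lc.CensusWidth

open Pool.Agent.NPC Pool.Agent.H579R2.Spt

/-- If some `NP`-hard set `A` reduces to a set `S` by a polynomial-time threshold reduction of
polynomially bounded total weight `d` and of width `c`, and `(census S (p n) + 1) ^ c n` is
polynomially bounded for every polynomial `p`, then `P = NP`. -/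
theorem result (A S : Set (List Bool)) (hA : NPHard A) (d c : ℕ → ℕ)
    (hd : ∃ q : Polynomial ℕ, ∀ n, d n ≤ q.eval n)
    (hc : ∀ p : Polynomial ℕ, ∃ q : Polynomial ℕ, ∀ n, (census S (p.eval n) + 1) ^ c n ≤ q.eval n)
    (hred : ThresholdReduces A S d c) : ∀ L : Set (List Bool), InNP L → InP L :=
  Pool.Agent.H579R6.p_eq_np_of_census A S hA d c hd hc hred

end Pool.Agent.Results.MP_634427_lc.CensusWidth
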