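import Mathlib
import Pool.Agent.H592R3.Defs
import Pool.Agent.H592R8.OracleDefs
import Pool.Agent.H592R8.OracleSat
import Pool.Agent.Results.MP_31fc63_lc.AverageCaseSmallDepth

/-!
Satisfiability does not reduce by oracle circuits of small depth to sets of density
`2 ^ ((1 - ε) n)`, even on average.
-/

open SmallDepth DomAC0 Filter

open Classical in
theorem Pool.Agent.Results.MP_634427_lc.DenseSetsSmallDepth.result :
    (∀ ε : ℝ, 0 < ε → ∃ C : ℝ, 0 < C ∧ ∀ n d w M : ℕ, 2 ≤ n → 1 ≤ d →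
      C * (d * Real.log n) ≤ w → w ≤ n → n * 2 ^ w ≤ M →
      ∃ ν₀ ν₁ : ((Fin M × Fin n × Bool) → Bool) → ℝ,
        ((∀ u, 0 ≤ ν₀ u) ∧ ∑ u, ν₀ u = 1) ∧ ((∀ u, 0 ≤ ν₁ u) ∧ ∑ u, ν₁ u = 1) ∧
        (∀ u, ν₀ u ≠ 0 → WidthLe u w) ∧ (∀ u, ν₁ u ≠ 0 → WidthLe u w ∧ ∃ α, Models u α) ∧
        (∑ u, ν₀ u * (if ∃ α, Models u α then 1 else 0)) ≤ (2 : ℝ) ^ (-((1 - ε) * n / 2)) ∧
        ∀ (D : ℕ) (A : Set (List Bool)) (K : OracleCircuit (Fin M × Fin n × Bool)), AtMost A D →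
          K.depth ≤ d → (K.size : ℝ) * (3 * D + 1) ≤ 2 ^ ((1 - ε) * n) →
          |(∑ u, ν₀ u * (if K.eval A u = true then 1 else 0)) -
            ∑ u, ν₁ u * (if K.eval A u = true then 1 else 0)| ≤ (2 : ℝ) ^ (-((w : ℝ) / C))) ∧
    (∀ p p' : ℕ, p < p' → ∀ c d : ℕ, ∃ K : ℕ, ∀ᶠ n : ℕ in atTop, ∀ w M : ℕ,
      w = K * Nat.clog 2 n → M = n * 2 ^ w →
      ∃ ν : ((Fin M × Fin n × Bool) → Bool) → ℝ, (∀ u, 0 ≤ ν u) ∧ ∑ u, ν u = 1 ∧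
        (∀ u, ν u ≠ 0 → WidthLe u w) ∧
        ∀ A : Set (List Bool), AtMost A (2 ^ (p * n / p')) →
        ∀ D : OracleCircuit (Fin M × Fin n × Bool), D.depth ≤ d → D.size ≤ n ^ c →
          (∑ u, ν u * (if (D.eval A u = true ↔ ∃ α, Models u α) then 1 else 0)) <
            1 / 2 + 1 / (n : ℝ) ^ c) := by
  refine ⟨fun ε hε => H592R3.Orc.oracle_sat ε hε, ?_⟩
  intro p p' hp c d
  obtain ⟨K, hK⟩ := Pool.Agent.Results.MP_31fc63_lc.AverageCaseSmallDepth.result.2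
    (p + p') (2 * p') (by omega) c (4 * d)
  refine ⟨K, ?_⟩
  filter_upwards [hK, H592R3.Orc.growth p p' c hp] with n h1 h2
  intro w M hw hM
  obtain ⟨ν, h3, h4, h5, h6⟩ := h1 w M hw hM
  refine ⟨ν, h3, h4, h5, ?_⟩
  intro A hA D hD1 hD2
  obtain ⟨D', e1, e2, e3⟩ := H592R3.Orc.to_circuit D A _ hA
  have h7 := h6 D' (e3.trans (Nat.mul_le_mul_left 4 hD1))
    (e1.trans ((Nat.mul_le_mul_right _ hD2).trans h2))
  simp only [e2] at h7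
  exact h7
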