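import Pool.Agent.H550R2.SP.Num

set_option autoImplicit false

/-! Symmetric adaptive reductions of 3-SAT to sparse sets. -/

namespace Pool.Agent.Results.MP_634427_lc.SymmetricSparse

open Pool.Agent.H550R2.Lift Pool.Agent.H550R2.Lin
open Pool.Agent.H550R2.Neg (act)
open Pool.Agent.H30R2.NS (Clause Ext Sat Small)

theorem result {X : Type} {n : ℕ} {ι : Fin n → X} (hι : Function.Injective ι) (E : Ext ι) (r : ℕ)
    (F : OProc (Clause 3 X) (Fin n) (act 3 E) r) (S : ∀ i, Finset (F.O i → Bool))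
    (hF : ∀ Φ ∈ Small 3 X (4 * (n + 1)), F.acc S (ind Φ) = true ↔ Sat Φ) :
    -- the general bound
    (∀ s w l : ℕ, (∀ i, (S i).card ≤ s) → F.cost < 2 ^ w → 1 ≤ w → r * s ≤ 2 ^ l →
      n < 8000 * (w * (l + 1) * (l * r + 1))) ∧
    -- polynomial cost and polynomially many strings in the oracle
    (∀ c : ℕ, (∀ i, (S i).card ≤ n ^ c) → F.cost ≤ n ^ c →
      n ≤ 8000 * (c + 2) ^ 3 * (Nat.log 2 n + 1) ^ 3 * (r + 1)) :=
  ⟨fun _ _ _ hs hc hw hrs => Pool.Agent.H550R2.SP.sparse_bound hι E F S hs hc hw hrs hF,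
    fun _ hs hc => Pool.Agent.H550R2.SP.sparse_poly hι E F S hs hc hF⟩

end Pool.Agent.Results.MP_634427_lc.SymmetricSparse
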