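import Pool.Agent.H550R2.SP.Thr2

set_option autoImplicit false

/-! Symmetric threshold reductions of 3-SAT to sets with few strings. -/

namespace Pool.Agent.Results.MP_634427_lc.SymmetricThreshold

open Pool.Agent.H550R2.Lift Pool.Agent.H550R2.Lin
open Pool.Agent.H550R2.Neg (act)
open Pool.Agent.H30R2.NS (Clause Ext Sat Small)

theorem result {X : Type} {n : ℕ} {ι : Fin n → X} (hι : Function.Injective ι) (E : Ext ι)
    (F : TRed (Clause 3 X) (Fin n) (act 3 E)) (s : ℕ) (hs : ∀ j, (F.S j).card ≤ s) (θ δ : ℝ)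
    (hδ : 0 < δ)
    (hF : ∀ Φ ∈ Small 3 X (4 * (n + 1)),
      (Sat Φ → θ + δ ≤ F.value Φ) ∧ (¬ Sat Φ → F.value Φ ≤ θ)) :
    -- the general bound
    (∀ w q : ℕ, (∀ j, F.cost j < 2 ^ w) → 2 * F.weight ≤ δ * 2 ^ w → 1 ≤ w → 1 ≤ q →
      8000 * (q * w) ≤ n → δ * 2 ^ q ≤ 2 * F.weight * s) ∧
    -- polynomial cost
    (∀ c : ℕ, (∀ j, F.cost j ≤ n ^ c) → 2 * F.weight ≤ δ * n ^ c →
      8000 * (c * (Nat.log 2 n + 1) + 1) ≤ n →
      2 ^ (n / (8000 * (c * (Nat.log 2 n + 1) + 1))) ≤ n ^ c * s) :=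
  ⟨fun _ _ hc hW hw hq hn => Pool.Agent.H550R2.SP.thr_bound hι E F hs hF hc hW hw hq hn,
    fun _ hc hW hn => Pool.Agent.H550R2.SP.thr_poly hι E F hs hδ hF hc hW hn⟩

end Pool.Agent.Results.MP_634427_lc.SymmetricThreshold
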